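import Pool.Agent.Q16.SubTop

/-!
# The group of permutations of the Cantor space permuting finitely many initial coordinates
-/

open Topology Filter Set Equiv

noncomputable section

namespace Q16.Cent

abbrev X : Type := ℕ → Bool

theorem app_inv (g : Perm X) (x : X) : g (g⁻¹ x) = x := g.apply_symm_apply x

theorem inv_app (g : Perm X) (x : X) : g⁻¹ (g x) = x := g.symm_apply_apply x

/-- `x` and `y` agree on the first `k` coordinates. -/
def Agree (k : ℕ) (x y : X) : Prop := ∀ i < k, x i = y i

theorem Agree.symm {k : ℕ} {x y : X} (h : Agree k x y) : Agree k y x := fun i hi => (h i hi).symm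

theorem Agree.trans {k : ℕ} {x y z : X} (h : Agree k x y) (h' : Agree k y z) : Agree k x z :=
  fun i hi => (h i hi).trans (h' i hi)

theorem Agree.mono {k l : ℕ} (hkl : k ≤ l) {x y : X} (h : Agree l x y) : Agree k x y :=
  fun i hi => h i (lt_of_lt_of_le hi hkl)

/-- Permutations of the first `k` bits. -/
def S (k : ℕ) : Subgroup (Perm X) where
  carrier := {g | (∀ x n, k ≤ n → g x n = x n) ∧ ∀ x y, Agree k x y → Agree k (g x) (g y)}
  one_mem' := ⟨fun _ _ _ => rfl, fun _ _ h => h⟩
  mul_mem' := by
    rintro a b ⟨ha1, ha2⟩ ⟨hb1, hb2⟩
    refine ⟨fun x n hn => ?_, fun x y h => ha2 _ _ (hb2 _ _ h)⟩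
    rw [Perm.mul_apply, ha1 _ n hn, hb1 _ n hn]
  inv_mem' := by
    rintro g ⟨h1, h2⟩
    have h1' : ∀ x n, k ≤ n → g⁻¹ x n = x n := by
      intro x n hn
      have := h1 (g⁻¹ x) n hn
      rw [app_inv] at this
      exact this.symm
    refine ⟨h1', fun x y h => ?_⟩
    let z : X := fun i => if i < k then g⁻¹ x i else g⁻¹ y i
    have hz1 : Agree k z (g⁻¹ x) := by
      intro i hi
      simp only [z, if_pos hi]
    have hz2 := h2 _ _ hz1
    rw [app_inv] at hz2
    have hz3 : g z = y := by
      funext i
      by_cases hi : i < k
      · rw [hz2 i hi, h i hi]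
      · push Not at hi
        rw [h1 z i hi]
        simp only [z, if_neg (not_lt.2 hi)]
        exact h1' y i hi
    have hz4 : z = g⁻¹ y := by
      rw [← hz3, inv_app]
    rw [hz4] at hz1
    exact hz1.symm

theorem mem_S {k : ℕ} {g : Perm X} : g ∈ S k ↔ (∀ x n, k ≤ n → g x n = x n) ∧
    ∀ x y, Agree k x y → Agree k (g x) (g y) := Iff.rfl

theorem S_mono {k l : ℕ} (hkl : k ≤ l) : S k ≤ S l := by
  rintro g ⟨h1, h2⟩
  refine ⟨fun x n hn => h1 x n (hkl.trans hn), fun x y h i hi => ?_⟩
  by_cases hik : i < k
  · exact h2 x y (h.mono hkl) i hik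
  · push Not at hik
    rw [h1 x i hik, h1 y i hik, h i hi]

theorem S_finite (k : ℕ) : (S k : Set (Perm X)).Finite := by
  let ext : (Fin k → Bool) → X := fun u i => if h : i < k then u ⟨i, h⟩ else false
  let F : Perm X → ((Fin k → Bool) → (Fin k → Bool)) := fun g u i => g (ext u) i
  apply Set.Finite.of_finite_image (f := F) (Set.toFinite _)
  intro g hg g' hg' h
  apply Equiv.ext
  intro x
  funext i
  by_cases hi : i < k
  · have ha : Agree k x (ext (fun j => x j)) := by
      intro j hj
      simp only [ext, dif_pos hj]
    rw [hg.2 _ _ ha i hi, hg'.2 _ _ ha i hi]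
    exact congrFun (congrFun h (fun j => x j)) ⟨i, hi⟩
  · push Not at hi
    rw [hg.1 x i hi, hg'.1 x i hi]

/-- The union of the groups `S k`. -/
def GG : Subgroup (Perm X) where
  carrier := {g | ∃ k, g ∈ S k}
  one_mem' := ⟨0, (S 0).one_mem⟩
  mul_mem' := by
    rintro a b ⟨k, hk⟩ ⟨l, hl⟩
    exact ⟨max k l, (S _).mul_mem (S_mono (le_max_left _ _) hk) (S_mono (le_max_right _ _) hl)⟩
  inv_mem' := by
    rintro a ⟨k, hk⟩
    exact ⟨k, (S k).inv_mem hk⟩

abbrev G : Type := GG

instance : Countable G := by
  have h : (GG : Set (Perm X)) = ⋃ k, (S k : Set (Perm X)) := by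
    ext g
    rw [mem_iUnion]
    rfl
  have h2 : (GG : Set (Perm X)).Countable := by
    rw [h]
    exact countable_iUnion fun k => (S_finite k).countable
  exact h2.to_subtype

/-- Permutations that do not change the first `n` bits. -/
def U (n : ℕ) : Subgroup G where
  carrier := {g | ∀ x, Agree n (g.1 x) x}
  one_mem' := fun x i _ => rfl
  mul_mem' := by
    intro a b ha hb x
    exact (ha (b.1 x)).trans (hb x)
  inv_mem' := by
    intro a ha x
    have := ha (a.1⁻¹ x)
    rw [app_inv] at this
    exact this.symm

def basis : SubBasis G ℕ where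
  V := U
  i₀ := 0
  dir := fun i j => ⟨max i j, fun g hg x => (hg x).mono (le_max_left _ _),
    fun g hg x => (hg x).mono (le_max_right _ _)⟩
  conj := by
    rintro n ⟨g, k, hk⟩
    refine ⟨max n k, fun h hh x => ?_⟩
    have h1 := hh (g⁻¹ x)
    have h2 := (S_mono (le_max_right n k) hk).2 _ _ h1
    rw [app_inv] at h2
    exact h2.mono (le_max_left _ _)

theorem t2 : @T2Space G basis.topology := by
  apply basis.t2Space
  intro g hg
  apply Subtype.ext
  apply Equiv.ext
  intro x
  funext i
  exact hg (i + 1) x i (Nat.lt_succ_self i)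

/-- Flip the bit `0`. -/
def bPerm : Perm X := Function.Involutive.toPerm (fun x => Function.update x 0 (!x 0)) (by
  intro x
  funext i
  by_cases h : i = 0
  · subst h; simp
  · simp [Function.update_of_ne h])

theorem bPerm_apply (x : X) : bPerm x = Function.update x 0 (!x 0) := rfl

/-- Flip the bit `n + 1` if the bit `0` is `false`. -/
def hPerm (n : ℕ) : Perm X := Function.Involutive.toPerm
  (fun x => bif x 0 then x else Function.update x (n + 1) (!x (n + 1))) (by
  intro x
  cases h : x 0
  · simp only [h, cond_false]
    have h0 : Function.update x (n + 1) (!x (n + 1)) 0 = false := by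
      rw [Function.update_of_ne (by omega), h]
    simp only [h0, cond_false]
    funext i
    by_cases hi : i = n + 1
    · subst hi; simp
    · simp [Function.update_of_ne hi]
  · simp [h])

theorem hPerm_apply (n : ℕ) (x : X) :
    hPerm n x = bif x 0 then x else Function.update x (n + 1) (!x (n + 1)) := rfl

theorem bPerm_mem : bPerm ∈ GG := by
  refine ⟨1, fun x n hn => ?_, fun x y h i hi => ?_⟩
  · rw [bPerm_apply, Function.update_of_ne (by omega)]
  · have : i = 0 := by omega
    subst this
    rw [bPerm_apply, bPerm_apply, Function.update_self, Function.update_self, h 0 (by omega)]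

theorem hPerm_mem (n : ℕ) : hPerm n ∈ GG := by
  refine ⟨n + 2, fun x m hm => ?_, fun x y h i hi => ?_⟩
  · rw [hPerm_apply]
    cases x 0
    · simp only [cond_false]
      rw [Function.update_of_ne (by omega)]
    · rfl
  · rw [hPerm_apply, hPerm_apply, h 0 (by omega)]
    cases y 0
    · simp only [cond_false]
      by_cases hi' : i = n + 1
      · subst hi'
        rw [Function.update_self, Function.update_self, h (n + 1) (by omega)]
      · rw [Function.update_of_ne hi', Function.update_of_ne hi', h i hi]
    · simp only [cond_true]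
      exact h i hi

def b : G := ⟨bPerm, bPerm_mem⟩
def h (n : ℕ) : G := ⟨hPerm n, hPerm_mem n⟩

theorem h_mem (n : ℕ) : h n ∈ U n := by
  intro x i hi
  change hPerm n x i = x i
  rw [hPerm_apply]
  cases x 0
  · simp only [cond_false]
    rw [Function.update_of_ne (by omega)]
  · rfl

theorem h_not_comm (n : ℕ) : h n * b ≠ b * h n := by
  intro hc
  have h1 : (hPerm n * bPerm) = (bPerm * hPerm n) := congrArg Subtype.val hc
  have h2 := congrFun (congrArg (fun p : Perm X => p (fun _ => false)) h1) (n + 1)
  simp only [Perm.mul_apply, bPerm_apply, hPerm_apply] at h2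
  simp [Function.update] at h2

/-- In the subgroup topology the centralizer of `b` is not a neighbourhood of `1`. -/
theorem not_nhds : {x : G | x * b * x⁻¹ = 1 * b * 1⁻¹} ∉ @nhds G basis.topology 1 := by
  rw [basis.mem_nhds_one]
  rintro ⟨n, hn⟩
  have h1 := hn (h_mem n)
  simp only [mem_ofPred_eq, one_mul, inv_one, mul_one] at h1
  apply h_not_comm n
  rw [mul_inv_eq_iff_eq_mul] at h1
  exact h1

/-! ### Double centralizers -/

/-- Replace the coordinates in `[n, k)`. -/
abbrev P (n k : ℕ) : Type := {i : ℕ // n ≤ i ∧ i < k} → Bool

def restr (n k : ℕ) (x : X) : P n k := fun i => x i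

def graft (n k : ℕ) (x : X) (p : P n k) : X := fun i => if h : n ≤ i ∧ i < k then p ⟨i, h⟩ else x i

theorem restr_graft (n k : ℕ) (x : X) (p : P n k) : restr n k (graft n k x p) = p := by
  funext i
  simp only [restr, graft, dif_pos i.2]

theorem graft_graft (n k : ℕ) (x : X) (p q : P n k) :
    graft n k (graft n k x p) q = graft n k x q := by
  funext i
  by_cases h : n ≤ i ∧ i < k
  · simp only [graft, dif_pos h]
  · simp only [graft, dif_neg h]

theorem graft_restr (n k : ℕ) (x : X) : graft n k x (restr n k x) = x := by
  funext i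
  by_cases h : n ≤ i ∧ i < k
  · simp only [graft, dif_pos h, restr]
  · simp only [graft, dif_neg h]

def act (n k : ℕ) (σ : Perm (P n k)) : Perm X where
  toFun x := graft n k x (σ (restr n k x))
  invFun x := graft n k x (σ.symm (restr n k x))
  left_inv x := by
    simp only [restr_graft, graft_graft, Equiv.symm_apply_apply, graft_restr]
  right_inv x := by
    simp only [restr_graft, graft_graft, Equiv.apply_symm_apply, graft_restr]

theorem act_apply (n k : ℕ) (σ : Perm (P n k)) (x : X) :
    act n k σ x = graft n k x (σ (restr n k x)) := rfl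

theorem act_mem (n k : ℕ) (σ : Perm (P n k)) : act n k σ ∈ S k := by
  refine ⟨fun x m hm => ?_, fun x y h i hi => ?_⟩
  · rw [act_apply, graft, dif_neg (by omega)]
  · have hr : restr n k x = restr n k y := by
      funext j
      exact h j j.2.2
    rw [act_apply, act_apply, hr]
    by_cases h' : n ≤ i ∧ i < k
    · simp only [graft, dif_pos h']
    · simp only [graft, dif_neg h', h i hi]

theorem act_comm (n k : ℕ) (σ : Perm (P n k)) {s : Perm X} (hs : s ∈ S n) :
    s * act n k σ = act n k σ * s := by
  apply Equiv.ext
  intro x
  funext i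
  rw [Perm.mul_apply, Perm.mul_apply]
  have hr : restr n k (s x) = restr n k x := by
    funext j
    exact hs.1 x j j.2.1
  by_cases hi : i < n
  · have ha : Agree n (act n k σ x) x := by
      intro j hj
      rw [act_apply, graft, dif_neg (by omega)]
    rw [hs.2 _ _ ha i hi]
    rw [act_apply, graft, dif_neg (by omega)]
  · push Not at hi
    rw [hs.1 _ i hi, act_apply, act_apply, hr]
    by_cases h' : n ≤ i ∧ i < k
    · simp only [graft, dif_pos h']
    · simp only [graft, dif_neg h', hs.1 x i hi]

/-- An element of `G` commuting with the centralizer of `S n` lies in `S n`. -/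
theorem mem_of_centralizes (n : ℕ) (g : Perm X) (hg : g ∈ GG)
    (hc : ∀ d ∈ GG, (∀ s ∈ S n, s * d = d * s) → g * d = d * g) : g ∈ S n := by
  classical
  obtain ⟨k₀, hk₀⟩ := hg
  let k := max k₀ (n + 2)
  have hk : g ∈ S k := S_mono (le_max_left _ _) hk₀
  have hkn : n + 2 ≤ k := le_max_right _ _
  have hcomm : ∀ (σ : Perm (P n k)) x, g (act n k σ x) = act n k σ (g x) := by
    intro σ x
    have := hc (act n k σ) ⟨k, act_mem n k σ⟩ (fun s hs => act_comm n k σ hs)
    exact congrArg (fun p : Perm X => p x) this
  constructor
  · intro x m hm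
    by_cases hmk : k ≤ m
    · exact hk.1 x m hmk
    · push Not at hmk
      by_contra hne
      -- the patterns of x and g x differ
      let y := restr n k x
      let c := restr n k (g x)
      have hyc : c ≠ y := by
        intro h
        exact hne (congrFun h ⟨m, hm, hmk⟩)
      -- a third pattern
      have h3 : ∃ d : P n k, d ≠ y ∧ d ≠ c := by
        by_contra hn
        push Not at hn
        let i0 : {i : ℕ // n ≤ i ∧ i < k} := ⟨n, le_rfl, by omega⟩
        let i1 : {i : ℕ // n ≤ i ∧ i < k} := ⟨n + 1, by omega, by omega⟩
        have hi : i0 ≠ i1 := by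
          intro h
          have := congrArg Subtype.val h
          simp only [i0, i1] at this
          omega
        let d0 := Function.update y i0 (!y i0)
        let d1 := Function.update y i1 (!y i1)
        have h0 : d0 ≠ y := by
          intro h
          have := congrFun h i0
          simp [d0] at this
        have h1 : d1 ≠ y := by
          intro h
          have := congrFun h i1
          simp [d1] at this
        have h01 : d0 ≠ d1 := by
          intro h
          have := congrFun h i0
          simp [d0, d1, Function.update_of_ne hi] at this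
        exact h01 ((hn d0 h0).trans (hn d1 h1).symm)
      obtain ⟨d, hdy, hdc⟩ := h3
      have h4 : act n k (swap c d) x = x := by
        rw [act_apply]
        have : swap c d (restr n k x) = restr n k x := swap_apply_of_ne_of_ne hyc.symm hdy.symm
        rw [this, graft_restr]
      have h5 := hcomm (swap c d) x
      rw [h4] at h5
      have h6 : restr n k (g x) = d := by
        rw [h5, act_apply, restr_graft]
        exact swap_apply_left c d
      exact hdc h6.symm
  · intro x y hxy
    -- reduce to y agreeing with x beyond k
    let y' : X := fun i => if i < k then y i else x i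
    have hy' : Agree k y' y := by
      intro i hi
      simp only [y', if_pos hi]
    have h1 : Agree n (g y') (g y) := (hk.2 _ _ hy').mono (by omega)
    have h2 : act n k (swap (restr n k x) (restr n k y')) x = y' := by
      rw [act_apply, swap_apply_left]
      funext i
      by_cases h : n ≤ i ∧ i < k
      · simp only [graft, dif_pos h, restr]
      · simp only [graft, dif_neg h]
        simp only [y']
        split_ifs with hi
        · exact hxy i (by omega)
        · rfl
    have h3 := hcomm (swap (restr n k x) (restr n k y')) x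
    rw [h2] at h3
    have h4 : Agree n (g y') (g x) := by
      rw [h3]
      intro j hj
      rw [act_apply, graft, dif_neg (by omega)]
    exact h4.symm.trans h1

end Q16.Cent
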